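/-
helper28. MAD: module CNT (counting of subsequences).
-/
import Pool.Agent.H20.MAD.Def

set_option autoImplicit false

namespace Pool.MAD

open Finset
open scoped Classical

theorem cnt_nil {V : Type} (w : List V) : cnt [] w = 1 := by
  cases w <;> simp [cnt]

theorem cnt_cons_nil {V : Type} (y : V) (ys : List V) : cnt (y :: ys) [] = 0 := by
  simp [cnt]

theorem cnt_cons {V : Type} (y : V) (ys : List V) (x : V) (xs : List V) :
    cnt (y :: ys) (x :: xs) = cnt (y :: ys) xs + (if x = y then cnt ys xs else 0) := by
  simp [cnt]

theorem cnt_nn {V : Type} (w : List V) : ∀ y : List V, 0 ≤ cnt y w := by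
  induction w with
  | nil =>
    intro y
    cases y with
    | nil => rw [cnt_nil]; exact zero_le_one
    | cons a ys => rw [cnt_cons_nil]
  | cons x xs ih =>
    intro y
    cases y with
    | nil => rw [cnt_nil]; exact zero_le_one
    | cons a ys =>
      rw [cnt_cons]
      refine add_nonneg (ih _) ?_
      split_ifs
      · exact ih _
      · exact le_refl _

theorem cnt_app {V : Type} (w : List V) : ∀ y w' : List V, cnt y (w ++ w') =
      ∑ i ∈ range (y.length + 1), cnt (y.take i) w * cnt (y.drop i) w' := by
  induction w with
  | nil =>
    intro y w'
    cases y with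
    | nil => simp [cnt_nil]
    | cons a ys =>
      rw [Finset.sum_range_succ']
      simp [cnt_nil, cnt_cons_nil]
  | cons x xs ih =>
    intro y w'
    cases y with
    | nil => simp [cnt_nil]
    | cons a ys =>
      rw [List.cons_append, cnt_cons, ih (a :: ys) w', ih ys w', Finset.sum_range_succ',
        Finset.sum_range_succ' (fun i => cnt ((a :: ys).take i) (x :: xs) *
          cnt ((a :: ys).drop i) w')]
      simp only [List.length_cons, List.take_succ_cons, List.drop_succ_cons, List.take_zero,
        List.drop_zero, cnt_nil, cnt_cons, add_mul, Finset.sum_add_distrib, ite_mul, zero_mul]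
      by_cases hxa : x = a
      · simp only [hxa, if_true]
        ring
      · simp only [hxa, if_false, Finset.sum_const_zero]
        ring

theorem cnt_long {V : Type} (w : List V) : ∀ y : List V, w.length < y.length → cnt y w = 0 := by
  induction w with
  | nil =>
    intro y hy
    cases y with
    | nil => simp at hy
    | cons a ys => exact cnt_cons_nil _ _
  | cons x xs ih =>
    intro y hy
    cases y with
    | nil => simp at hy
    | cons a ys =>
      simp only [List.length_cons] at hy
      rw [cnt_cons, ih (a :: ys) (by simp only [List.length_cons]; omega), ih ys (by omega)]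
      simp

theorem cnt_take {V : Type} (w : List V) : ∀ (y : List V) (t : ℕ),
    cnt y (w.take t) ≤ cnt y w := by
  induction w with
  | nil => intro y t; simp
  | cons x xs ih =>
    intro y t
    cases t with
    | zero =>
      cases y with
      | nil => simp [cnt_nil]
      | cons a ys =>
        rw [List.take_zero, cnt_cons_nil]
        exact cnt_nn _ _
    | succ t =>
      cases y with
      | nil => simp [cnt_nil]
      | cons a ys =>
        rw [List.take_succ_cons, cnt_cons, cnt_cons]
        refine add_le_add (ih _ _) ?_
        split_ifs
        · exact ih _ _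
        · exact le_refl _

theorem cnt_notin {V : Type} (w : List V) : ∀ (y : List V) (x : V), x ∈ y → x ∉ w →
    cnt y w = 0 := by
  induction w with
  | nil =>
    intro y x hx _
    cases y with
    | nil => simp at hx
    | cons a ys => exact cnt_cons_nil _ _
  | cons b bs ih =>
    intro y x hx hw
    cases y with
    | nil => simp at hx
    | cons a ys =>
      have hb : x ≠ b := fun h => hw (h ▸ List.mem_cons_self)
      have hbs : x ∉ bs := fun h => hw (List.mem_cons_of_mem _ h)
      rw [cnt_cons, ih (a :: ys) x hx hbs]
      by_cases hba : b = a
      · have hxy : x ∈ ys := by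
          rcases List.mem_cons.mp hx with h | h
          · exact absurd (h.trans hba.symm) hb
          · exact h
        rw [if_pos hba, ih ys x hxy hbs]
        simp
      · rw [if_neg hba]
        simp

theorem cnt_in {V : Type} (w : List V) : ∀ x : V, x ∈ w → 1 ≤ cnt [x] w := by
  induction w with
  | nil => intro x hx; simp at hx
  | cons b bs ih =>
    intro x hx
    rw [cnt_cons, cnt_nil]
    by_cases hb : b = x
    · rw [if_pos hb]
      have := cnt_nn bs [x]
      linarith
    · rw [if_neg hb]
      have hx' : x ∈ bs := by
        rcases List.mem_cons.mp hx with h | h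
        · exact absurd h.symm hb
        · exact h
      have := ih x hx'
      linarith

theorem cnt_sum {V : Type} [Fintype V] (w : List V) :
    ∑ x : V, cnt [x] w = w.length := by
  induction w with
  | nil => simp [cnt_cons_nil]
  | cons b bs ih =>
    simp only [cnt_cons, cnt_nil, Finset.sum_add_distrib, ih, List.length_cons,
      Finset.sum_ite_eq, Finset.mem_univ, if_true, Nat.cast_add, Nat.cast_one]

theorem t_cnt : CNTStmt := by
  intro V _
  exact ⟨fun y w => cnt_nn w y, fun y w w' => cnt_app w y w', fun y w => cnt_long w y,
    fun y w t => cnt_take w y t, fun y w x => cnt_notin w y x, fun w x => cnt_in w x,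
    fun w => cnt_sum w⟩

end Pool.MAD
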