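/-
helper28. MAD: module WLK (the sets of walks).
-/
import Pool.Agent.H20.MAD.Def

set_option autoImplicit false

namespace Pool.MAD

open Finset
open scoped Classical

theorem mem_Wk_zero {V : Type} (N : V → Finset V) (B : Finset V) (u : V) (w : List V) :
    w ∈ Wk N B 0 u ↔ w = [] := by
  simp [Wk]

theorem mem_Wk_succ {V : Type} (N : V → Finset V) (B : Finset V) (T : ℕ) (u : V)
    (w : List V) :
    w ∈ Wk N B (T + 1) u ↔ ∃ x ∈ N u, ∃ l : List V,
      ((x ∈ B ∧ l ∈ Wk N B T x) ∨ (x ∉ B ∧ l = [])) ∧ w = x :: l := by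
  simp only [Wk, Finset.mem_biUnion, Finset.mem_image]
  constructor
  · rintro ⟨x, hx, l, hl, rfl⟩
    refine ⟨x, hx, l, ?_, rfl⟩
    by_cases hB : x ∈ B
    · rw [if_pos hB] at hl
      exact Or.inl ⟨hB, hl⟩
    · rw [if_neg hB] at hl
      exact Or.inr ⟨hB, by simpa using hl⟩
  · rintro ⟨x, hx, l, hl, rfl⟩
    refine ⟨x, hx, l, ?_, rfl⟩
    rcases hl with ⟨hB, hl⟩ | ⟨hB, hl⟩
    · rw [if_pos hB]; exact hl
    · rw [if_neg hB]; simpa using hl

theorem Wk_ne {V : Type} (N : V → Finset V) (hN : ∀ x, (N x).Nonempty) (B : Finset V) :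
    ∀ (T : ℕ) (u : V), (Wk N B T u).Nonempty := by
  intro T
  induction T with
  | zero => intro u; exact ⟨[], (mem_Wk_zero N B u []).mpr rfl⟩
  | succ T ih =>
    intro u
    obtain ⟨x, hx⟩ := hN u
    by_cases hB : x ∈ B
    · obtain ⟨l, hl⟩ := ih x
      exact ⟨x :: l, (mem_Wk_succ N B T u _).mpr ⟨x, hx, l, Or.inl ⟨hB, hl⟩, rfl⟩⟩
    · exact ⟨[x], (mem_Wk_succ N B T u _).mpr ⟨x, hx, [], Or.inr ⟨hB, rfl⟩, rfl⟩⟩

theorem Wk_len {V : Type} (N : V → Finset V) (B : Finset V) :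
    ∀ (T : ℕ) (u : V), ∀ w ∈ Wk N B T u, w.length ≤ T := by
  intro T
  induction T with
  | zero =>
    intro u w hw
    rw [(mem_Wk_zero N B u w).mp hw]
    simp
  | succ T ih =>
    intro u w hw
    obtain ⟨x, _, l, hl, rfl⟩ := (mem_Wk_succ N B T u w).mp hw
    rcases hl with ⟨_, hl⟩ | ⟨_, rfl⟩
    · have := ih x l hl
      simp only [List.length_cons]
      omega
    · simp

theorem Wk_take {V : Type} (N : V → Finset V) (B : Finset V) :
    ∀ (T t : ℕ) (u : V), t ≤ T → ∀ w ∈ Wk N B T u, w.take t ∈ Wk N B t u := by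
  intro T
  induction T with
  | zero =>
    intro t u ht w hw
    obtain rfl : t = 0 := by omega
    simp [mem_Wk_zero]
  | succ T ih =>
    intro t u ht w hw
    cases t with
    | zero => simp [mem_Wk_zero]
    | succ t =>
      obtain ⟨x, hx, l, hl, rfl⟩ := (mem_Wk_succ N B T u w).mp hw
      rw [List.take_succ_cons]
      rcases hl with ⟨hB, hl⟩ | ⟨hB, rfl⟩
      · exact (mem_Wk_succ N B t u _).mpr
          ⟨x, hx, l.take t, Or.inl ⟨hB, ih t x (by omega) l hl⟩, rfl⟩
      · exact (mem_Wk_succ N B t u _).mpr ⟨x, hx, _, Or.inr ⟨hB, by simp⟩, rfl⟩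

theorem Wk_cat {V : Type} (N : V → Finset V) (B' B : Finset V) (hBB : B' ⊆ B) :
    ∀ (T' T : ℕ) (u : V), T' ≤ T → u ∈ B' → ∀ w ∈ Wk N B' T' u,
      (lst u w ∈ B → ∀ w' ∈ Wk N B (T - w.length) (lst u w), w ++ w' ∈ Wk N B T u) ∧
      (lst u w ∉ B → w ∈ Wk N B T u) := by
  intro T'
  induction T' with
  | zero =>
    intro T u _ hu w hw
    obtain rfl := (mem_Wk_zero N B' u w).mp hw
    refine ⟨?_, ?_⟩
    · intro _ w' hw'
      simpa [lst] using hw'
    · intro h
      exact absurd (hBB hu) (by simpa [lst] using h)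
  | succ T' ih =>
    intro T u hT hu w hw
    obtain ⟨T1, rfl⟩ : ∃ T1, T = T1 + 1 := ⟨T - 1, by omega⟩
    obtain ⟨x, hx, l, hl, rfl⟩ := (mem_Wk_succ N B' T' u w).mp hw
    have hlst : lst u (x :: l) = lst x l := rfl
    rw [hlst]
    rcases hl with ⟨hB, hl⟩ | ⟨hB, rfl⟩
    · have hxB : x ∈ B := hBB hB
      obtain ⟨h1, h2⟩ := ih T1 x (by omega) hB l hl
      refine ⟨?_, ?_⟩
      · intro h w' hw'
        have e : T1 + 1 - (x :: l).length = T1 - l.length := by
          simp only [List.length_cons]; omega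
        rw [e] at hw'
        rw [List.cons_append]
        exact (mem_Wk_succ N B T1 u _).mpr ⟨x, hx, l ++ w', Or.inl ⟨hxB, h1 h w' hw'⟩, rfl⟩
      · intro h
        exact (mem_Wk_succ N B T1 u _).mpr ⟨x, hx, l, Or.inl ⟨hxB, h2 h⟩, rfl⟩
    · refine ⟨?_, ?_⟩
      · intro h w' hw'
        have hxB : x ∈ B := by simpa [lst] using h
        have e : T1 + 1 - ([x] : List V).length = T1 := by
          simp
        rw [e] at hw'
        have hw'' : w' ∈ Wk N B T1 x := by simpa [lst] using hw'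
        exact (mem_Wk_succ N B T1 u _).mpr ⟨x, hx, w', Or.inl ⟨hxB, hw''⟩, rfl⟩
      · intro h
        have hxB : x ∉ B := by simpa [lst] using h
        exact (mem_Wk_succ N B T1 u _).mpr ⟨x, hx, [], Or.inr ⟨hxB, rfl⟩, rfl⟩

theorem Wk_mem {V : Type} (N : V → Finset V) (B : Finset V) :
    ∀ (T : ℕ) (u : V), ∀ w ∈ Wk N B T u, ∀ x ∈ w, x ∈ B ∨ x = lst u w := by
  intro T
  induction T with
  | zero =>
    intro u w hw x hx
    rw [(mem_Wk_zero N B u w).mp hw] at hx
    simp at hx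
  | succ T ih =>
    intro u w hw x hx
    obtain ⟨y, _, l, hl, rfl⟩ := (mem_Wk_succ N B T u w).mp hw
    have hlst : lst u (y :: l) = lst y l := rfl
    rw [hlst]
    rcases hl with ⟨hB, hl⟩ | ⟨_, rfl⟩
    · rcases List.mem_cons.mp hx with rfl | h
      · exact Or.inl hB
      · exact ih y l hl x h
    · right
      simpa [lst] using hx

theorem Wk_exit {V : Type} (N : V → Finset V) (B : Finset V) :
    ∀ (T : ℕ) (u : V), u ∈ B → ∀ w ∈ Wk N B T u, w.length < T → lst u w ∉ B := by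
  intro T
  induction T with
  | zero => intro u _ w _ h; omega
  | succ T ih =>
    intro u _ w hw hlen
    obtain ⟨y, _, l, hl, rfl⟩ := (mem_Wk_succ N B T u w).mp hw
    have hlst : lst u (y :: l) = lst y l := rfl
    rw [hlst]
    simp only [List.length_cons] at hlen
    rcases hl with ⟨hB, hl⟩ | ⟨hB, rfl⟩
    · exact ih y hB l hl (by omega)
    · simpa [lst] using hB

theorem Wk_univ {V : Type} [Fintype V] (N : V → Finset V) :
    ∀ (T : ℕ) (u : V), ∀ w ∈ Wk N univ T u, w.length = T := by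
  intro T
  induction T with
  | zero =>
    intro u w hw
    rw [(mem_Wk_zero N univ u w).mp hw]
    rfl
  | succ T ih =>
    intro u w hw
    obtain ⟨y, _, l, hl, rfl⟩ := (mem_Wk_succ N univ T u w).mp hw
    rcases hl with ⟨_, hl⟩ | ⟨hB, _⟩
    · rw [List.length_cons, ih y l hl]
    · exact absurd (mem_univ y) hB

theorem t_wlk : WLKStmt := by
  intro V _ N hN
  exact ⟨fun B T u => Wk_ne N hN B T u, fun B T u => Wk_len N B T u,
    fun B T t u ht => Wk_take N B T t u ht,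
    fun B' B T' T u hB hT hu => Wk_cat N B' B hB T' T u hT hu,
    fun B T u => Wk_mem N B T u, fun B T u hu => Wk_exit N B T u hu,
    fun T u => Wk_univ N T u⟩

end Pool.MAD
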