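/-
helper28. MAD: module MIN (a plan of minimal energy exists).
-/
import Pool.Agent.H20.MAD.Def

set_option autoImplicit false

namespace Pool.MAD

open Finset
open scoped Classical

/-- extension by zero -/
noncomputable def ext0 {V : Type} (W : Finset (List V)) (p : W → ℝ) (w : List V) : ℝ :=
  if h : w ∈ W then p ⟨w, h⟩ else 0

theorem ext0_pln {V : Type} (W : Finset (List V)) (p : W → ℝ) (hp : p ∈ stdSimplex ℝ W) :
    Pln W (ext0 W p) := by
  refine ⟨?_, ?_, ?_⟩
  · intro w
    unfold ext0
    split_ifs with h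
    · exact hp.1 _
    · exact le_refl _
  · intro w hw
    unfold ext0
    rw [dif_neg hw]
  · rw [← hp.2, ← Finset.sum_coe_sort]
    refine Finset.sum_congr rfl fun w _ => ?_
    unfold ext0
    rw [dif_pos w.2]

theorem ext0_res {V : Type} (W : Finset (List V)) (P : List V → ℝ) (hP : Pln W P) :
    ext0 W (fun w : W => P w) = P := by
  funext w
  unfold ext0
  split_ifs with h
  · rfl
  · exact (hP.sup w h).symm

theorem res_mem {V : Type} (W : Finset (List V)) (P : List V → ℝ) (hP : Pln W P) :
    (fun w : W => P w) ∈ stdSimplex ℝ W := by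
  refine ⟨fun w => hP.nn _, ?_⟩
  rw [← hP.tot]
  exact Finset.sum_coe_sort W P

theorem en_cont {V : Type} [Fintype V] (n : ℕ) (A : ℝ) (W : Finset (List V)) :
    Continuous (fun p : W → ℝ => En n A (cv W (ext0 W p))) := by
  unfold En cv
  refine continuous_finsetSum _ fun y _ => ?_
  refine continuous_const.mul ?_
  refine Continuous.pow ?_ 2
  refine continuous_finsetSum _ fun w _ => ?_
  refine Continuous.mul ?_ continuous_const
  unfold ext0
  by_cases h : w ∈ W
  · simp only [dif_pos h]
    exact continuous_apply _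
  · simp only [dif_neg h]
    exact continuous_const

theorem minp_ex {V : Type} [Fintype V] (n : ℕ) (A : ℝ) (W : Finset (List V))
    (hW : W.Nonempty) : ∃ P, MinP n A W P := by
  obtain ⟨w₀, hw₀⟩ := hW
  have hne : (stdSimplex ℝ W).Nonempty :=
    ⟨Pi.single (⟨w₀, hw₀⟩ : W) 1, single_mem_stdSimplex ℝ _⟩
  obtain ⟨p, hp, hmin⟩ := (isCompact_stdSimplex ℝ W).exists_isMinOn hne
    (en_cont n A W).continuousOn
  refine ⟨ext0 W p, ext0_pln W p hp, ?_⟩
  intro P' hP'
  have := hmin (res_mem W P' hP')
  simp only [Set.mem_ofPred_eq, ext0_res W P' hP'] at this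
  exact this

theorem t_min : MINStmt := by
  intro V _ n A W _ hW
  unfold mp
  exact Classical.epsilon_spec (minp_ex n A W hW)

end Pool.MAD
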